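import Pool.Agent.V11101.TreeEnv

/-!
# A space with the Schur p-property whose Banach envelope is not a Schur space
-/

open Set Filter Topology
open Pool.Agent.V11101.Tree

namespace Pool.Agent.Results.MP_4b0054_an.EnvelopeNotSchur

theorem exists_branching {p : ℝ} (hp1 : p < 1) (M : ℝ) :
    ∃ n : ℕ, 0 < n ∧ Even n ∧ M ≤ n * (1 / (n : ℝ)) ^ p := by
  have h1 : Tendsto (fun n : ℕ => ((2 * n : ℕ) : ℝ) ^ (1 - p)) atTop atTop :=
    (tendsto_rpow_atTop (by linarith)).comp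
      (tendsto_natCast_atTop_atTop.comp (tendsto_id.const_mul_atTop' (by norm_num)))
  obtain ⟨n, hn, hn0⟩ := ((h1.eventually_ge_atTop M).and (eventually_gt_atTop 0)).exists
  refine ⟨2 * n, by omega, even_two_mul n, ?_⟩
  have hn0' : (0 : ℝ) < ((2 * n : ℕ) : ℝ) := by
    have : 0 < 2 * n := by omega
    exact_mod_cast this
  have h2 : ((2 * n : ℕ) : ℝ) * (1 / ((2 * n : ℕ) : ℝ)) ^ p = ((2 * n : ℕ) : ℝ) ^ (1 - p) := by
    rw [one_div, Real.inv_rpow hn0'.le, Real.rpow_sub hn0', Real.rpow_one, div_eq_mul_inv]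
  rw [h2]
  exact hn

/-- `(E, J)` is a Banach envelope of the quasi-Banach space `(X, N)`. -/
structure IsEnvelope (𝕜 : Type) [RCLike 𝕜] {X : Type} [AddCommGroup X] [Module 𝕜 X] (N : X → ℝ)
    (E : Type) [NormedAddCommGroup E] [NormedSpace 𝕜 E] (J : X →ₗ[𝕜] E) : Prop where
  complete : CompleteSpace E
  contraction : ∀ x, ‖J x‖ ≤ N x
  lift : ∀ (Y : Type) [NormedAddCommGroup Y] [NormedSpace 𝕜 Y] [CompleteSpace Y]
    (T : X →ₗ[𝕜] Y), (∀ x, ‖T x‖ ≤ N x) →
      ∃ T' : E →ₗ[𝕜] Y, (∀ z, ‖T' z‖ ≤ ‖z‖) ∧ ∀ x, T' (J x) = T x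

/-- The Schur property of a Banach space: weakly null sequences are norm null. -/
def SchurProperty (𝕜 : Type) [RCLike 𝕜] (E : Type) [NormedAddCommGroup E] [NormedSpace 𝕜 E] :
    Prop :=
  ∀ y : ℕ → E, (∀ φ : E →L[𝕜] 𝕜, Tendsto (fun n => φ (y n)) atTop (𝓝 0)) →
    Tendsto (fun n => ‖y n‖) atTop (𝓝 0)

/-- For every `0 < p < 1`, and for real and complex scalars, there is a quasi-Banach space with the
Schur `p`-property none of whose Banach envelopes has the Schur property. -/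
theorem result (𝕜 : Type) [RCLike 𝕜] (p : ℝ) (hp : 0 < p) (hp1 : p < 1) :
    ∃ (X : Type) (_ : AddCommGroup X) (_ : Module 𝕜 X) (N : X → ℝ),
      QuasiBanach 𝕜 X N ∧ (∀ x y, N (x + y) ^ p ≤ N x ^ p + N y ^ p) ∧ SchurP 𝕜 p X N ∧
      (∃ (E : Type) (_ : NormedAddCommGroup E) (_ : NormedSpace 𝕜 E) (J : X →ₗ[𝕜] E),
        IsEnvelope 𝕜 N E J ∧ DenseRange J) ∧
      ∀ (E : Type) [NormedAddCommGroup E] [NormedSpace 𝕜 E] (J : X →ₗ[𝕜] E),
        IsEnvelope 𝕜 N E J → ¬ SchurProperty 𝕜 E := by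
  choose N hN0 hNe hN using fun k : ℕ => exists_branching hp1 ((k : ℝ) + 1)
  let S : Par p :=
    { N := N
      c := fun k => 1 / (N k : ℝ)
      hp := hp
      hp1 := hp1.le
      hc := fun k => by
        have : (0 : ℝ) < N k := by exact_mod_cast hN0 k
        positivity
      hB := hN }
  have hbal : Bal S := ⟨fun k => by
    have h1 : (N k : ℝ) ≠ 0 := by exact_mod_cast (hN0 k).ne'
    show (N k : ℝ) * (1 / (N k : ℝ)) = 1
    field_simp⟩
  have hev : ∀ k, Even (S.N k) := hNe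
  have henv : IsEnvelope 𝕜 (qn (S := S) (𝕜 := 𝕜)) (Env S 𝕜) (J S 𝕜).toLinearMap :=
    ⟨inferInstance, norm_J_le, fun Y _ _ _ T hT => env_lift T hT⟩
  refine ⟨XX S 𝕜, inferInstance, inferInstance, qn, quasiBanach, fun x y => ?_, schurP,
    ⟨Env S 𝕜, inferInstance, inferInstance, (J S 𝕜).toLinearMap, henv, dense_J⟩, ?_⟩
  · rw [qn_pow, qn_pow, qn_pow]
    exact norm_add_le x y
  · intro E _ _ J' hE hSchur
    have hc := hE.complete
    obtain ⟨α, hα1, hα2⟩ := henv.lift E J' hE.contraction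
    obtain ⟨β, hβ1, hβ2⟩ := hE.lift (Env S 𝕜) (J S 𝕜).toLinearMap henv.contraction
    let αc : Env S 𝕜 →L[𝕜] E := α.mkContinuous 1 (fun z => by rw [one_mul]; exact hα1 z)
    let βc : E →L[𝕜] Env S 𝕜 := β.mkContinuous 1 (fun z => by rw [one_mul]; exact hβ1 z)
    have hβα : ∀ z, βc (αc z) = z := by
      intro z
      have h1 : (fun z => βc (αc z)) = id := by
        refine (dense_J (S := S) (𝕜 := 𝕜)).equalizer (βc.continuous.comp αc.continuous)
          continuous_id ?_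
        funext x
        show β (α (J S 𝕜 x)) = J S 𝕜 x
        have h2 : α (J S 𝕜 x) = J' x := hα2 x
        rw [h2]
        exact hβ2 x
      exact congrFun h1 z
    have h1 : Tendsto (fun n => ‖αc (rr S 𝕜 n)‖) atTop (𝓝 0) :=
      hSchur (fun n => αc (rr S 𝕜 n)) (fun φ => weakly_null hev (φ.comp αc))
    have h2 : ∀ n, (1 : ℝ) ≤ ‖αc (rr S 𝕜 n)‖ := by
      intro n
      rw [← norm_rr (S := S) (𝕜 := 𝕜) n]
      conv_lhs => rw [← hβα (rr S 𝕜 n)]
      exact hβ1 _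
    have h3 := ge_of_tendsto' h1 h2
    linarith

end Pool.Agent.Results.MP_4b0054_an.EnvelopeNotSchur
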